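import Pool.Agent.Run7.h783.LM.Low

/-!
# Local mean values of Weyl sums over small cubes: moments of order at most four

For all complex weights of size at most one, all cubes of side `δ ≤ 1` (with any centre) and all
degrees `d ≥ 2` the local fourth moment is at most `N ^ ε (δ ^ d N ^ 2 + δ ^ (d - 2) N)`. For `d = 2`
this is the bound of the question with `s = 2`, for all `δ`. For `δ ≥ N ^ (-1 / 2)` and `0 < s ≤ 2` the
bound `δ ^ d N ^ (s + ε)` of the question follows.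

Method: the Fejér kernel in the coordinates of degrees one and two, and a divisor argument for the
number of quadruples for which the linear and the quadratic form are at most `1 / δ` in absolute value.
-/

set_option autoImplicit false

open Finset MeasureTheory

namespace Pool.Agent.Results.MP_4e7873_nt.LowLocalMoments

/-- the Weyl sum `S_d(x; a, N) = ∑_{n ≤ N} a_n e(x_1 n + ⋯ + x_d n ^ d)`; the coordinate `x_(j+1)` of
the question is `x j`, `j = 0, …, d - 1` -/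
noncomputable def weyl {d : ℕ} (a : ℕ → ℂ) (N : ℕ) (x : Fin d → ℝ) : ℂ :=
  ∑ n ∈ Finset.Icc 1 N, a n *
    Complex.exp (2 * (Real.pi : ℂ) * Complex.I * ((∑ j, x j * (n : ℝ) ^ ((j : ℕ) + 1) : ℝ) : ℂ))

/-- the local mean value `I_{s,d}(δ, ξ; a, N)`: the integral of `|S_d(x; a, N)| ^ (2 s)` over the cube
`ξ + [0, δ] ^ d` -/
noncomputable def localMean {d : ℕ} (s δ : ℝ) (ξ : Fin d → ℝ) (a : ℕ → ℂ) (N : ℕ) : ℝ :=
  ∫ x in Set.pi Set.univ (fun j => Set.Icc (ξ j) (ξ j + δ)), ‖weyl a N x‖ ^ (2 * s)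

theorem weyl_eq {d : ℕ} (a : ℕ → ℂ) (N : ℕ) (x : Fin d → ℝ) :
    weyl a N x = Pool.Agent.Run7.h783.LM.ws a N x := by
  unfold weyl Pool.Agent.Run7.h783.LM.ws Pool.Agent.Run7.h783.LM.ph Pool.Agent.N965.LN.Fej.e
  refine Finset.sum_congr rfl fun n _ => ?_
  congr 2
  push_cast
  ring

/-- **Local mean values of order at most four.**

**(1)** For every `d ≥ 2` and `ε > 0` there is `C` such that for all `N ≥ 1`, `0 < δ ≤ 1`, all real `ξ`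
and all complex weights with `|a_n| ≤ 1`:
`∫_{ξ + [0, δ] ^ d} |S_d(x; a, N)| ^ 4 dx ≤ C N ^ ε (δ ^ d N ^ 2 + δ ^ (d - 2) N)`. For `d = 2` and
`a = 1` this is the bound of the question with `s = 2`, for all `0 < δ ≤ 1`.

**(2)** For every `d ≥ 2`, `0 < s ≤ 2` and `ε > 0` there is `C` such that for all `N ≥ 1`,
`N ^ (-1 / 2) ≤ δ ≤ 1`, all real `ξ` and all complex weights with `|a_n| ≤ 1`:
`∫_{ξ + [0, δ] ^ d} |S_d(x; a, N)| ^ (2 s) dx ≤ C N ^ ε δ ^ d N ^ s`. For `d = 2` this covers all `δ` of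
the question (`δ ≥ N ^ (1 / d - (d + 1) / 4) = N ^ (-1 / 4)`). -/
theorem result :
    (∀ d : ℕ, 2 ≤ d → ∀ ε : ℝ, 0 < ε → ∃ C : ℝ, 0 < C ∧ ∀ (N : ℕ) (δ : ℝ), 1 ≤ N → 0 < δ → δ ≤ 1 →
      ∀ (ξ : Fin d → ℝ) (a : ℕ → ℂ), (∀ n, ‖a n‖ ≤ 1) →
        localMean 2 δ ξ a N ≤ C * (N : ℝ) ^ ε * (δ ^ d * (N : ℝ) ^ 2 + δ ^ (d - 2) * N)) ∧
    (∀ d : ℕ, 2 ≤ d → ∀ s : ℝ, 0 < s → s ≤ 2 → ∀ ε : ℝ, 0 < ε → ∃ C : ℝ, 0 < C ∧
      ∀ (N : ℕ) (δ : ℝ), 1 ≤ N → (N : ℝ) ^ (-(1 / 2) : ℝ) ≤ δ → δ ≤ 1 →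
        ∀ (ξ : Fin d → ℝ) (a : ℕ → ℂ), (∀ n, ‖a n‖ ≤ 1) →
          localMean s δ ξ a N ≤ C * (N : ℝ) ^ ε * (δ ^ d * (N : ℝ) ^ s)) := by
  refine ⟨fun d hd ε hε => ?_, fun d hd s hs hs2 ε hε => ?_⟩
  · obtain ⟨C, hC, h⟩ := Pool.Agent.Run7.h783.LM.main d hd ε hε
    refine ⟨C, hC, fun N δ hN hδ hδ1 ξ a ha => ?_⟩
    have h1 := h N δ hN hδ hδ1 ξ a ha
    unfold localMean
    have e : ∀ x : Fin d → ℝ, ‖weyl a N x‖ ^ (2 * (2 : ℝ)) =
        ‖Pool.Agent.Run7.h783.LM.ws a N x‖ ^ 4 := by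
      intro x
      rw [weyl_eq, show (2 : ℝ) * 2 = ((4 : ℕ) : ℝ) by norm_num, Real.rpow_natCast]
    simp_rw [e]
    exact h1
  · obtain ⟨C, hC, h⟩ := Pool.Agent.Run7.h783.LM.low d hd s hs hs2 ε hε
    refine ⟨C, hC, fun N δ hN hNδ hδ1 ξ a ha => ?_⟩
    have hN0 : (0 : ℝ) < N := by exact_mod_cast hN
    have hp : 0 < (N : ℝ) ^ (-(1 / 2) : ℝ) := by positivity
    have hδ : 0 < δ := hp.trans_le hNδ
    have h2 : 1 ≤ δ ^ 2 * N := by
      have h3 : ((N : ℝ) ^ (-(1 / 2) : ℝ)) ^ 2 ≤ δ ^ 2 := pow_le_pow_left₀ hp.le hNδ 2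
      have h4 : ((N : ℝ) ^ (-(1 / 2) : ℝ)) ^ 2 = (N : ℝ)⁻¹ := by
        rw [← Real.rpow_natCast _ 2, ← Real.rpow_mul hN0.le, ← Real.rpow_neg_one]
        congr 1
        norm_num
      rw [h4] at h3
      calc (1 : ℝ) = (N : ℝ)⁻¹ * N := by field_simp
        _ ≤ δ ^ 2 * N := mul_le_mul_of_nonneg_right h3 hN0.le
    have h1 := h N δ hN hδ hδ1 h2 ξ a ha
    unfold localMean
    simp_rw [weyl_eq]
    exact h1

end Pool.Agent.Results.MP_4e7873_nt.LowLocalMoments
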